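import Pool.Agent.W810.SYN.APX
import Pool.Agent.W109.SYN.RL
import Pool.Agent.W172.SYN.FEJ
import Pool.Agent.W466.SYN.CLS
import Pool.Agent.W530.SYN.HAR
import Pool.Agent.W37.SYN.MEAS
import Pool.Agent.W212.SYN.UN
import Pool.Agent.W796.SYN.LC
import Pool.Agent.W229.SYN.FIN

set_option autoImplicit false

namespace Pool.Agent.Results.MP_de9001_an.IntervalClasses

open MeasureTheory AddCircle

noncomputable section

instance twoPiPos : Fact (0 < 2 * Real.pi) := ⟨Real.two_pi_pos⟩

/-- The circle `ℝ / 2πℤ`. -/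
abbrev Circ : Type := AddCircle (2 * Real.pi)

/-- The Banach space `L¹` of the circle (normalised Haar measure). -/
abbrev L1 : Type := Lp ℂ 1 (haarAddCircle : Measure Circ)

/-- Convolution `f * g (x) = ∫ f(t) g(x - t) dt`. -/
def conv (f g : L1) : L1 :=
  ((L1.integrable_coeFn f).integrable_convolution (ContinuousLinearMap.mul ℂ ℂ)
    (L1.integrable_coeFn g)).toL1 _

/-- The `n`-th Fourier coefficient. -/
def coeff (f : L1) (n : ℤ) : ℂ := fourierCoeff (f : Circ → ℂ) n

/-- Closed subalgebras of `L¹`. -/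
structure IsClosedSubalgebra (A : Submodule ℂ L1) : Prop where
  closed : IsClosed (A : Set L1)
  conv_mem : ∀ f ∈ A, ∀ g ∈ A, conv f g ∈ A

/-- The relation `r(A)`. -/
def RudinRel (A : Submodule ℂ L1) (m n : ℤ) : Prop := ∀ f ∈ A, coeff f m = coeff f n

/-- `A` is the smallest closed subalgebra containing all idempotents that lie in `A`. -/
def GeneratedByIdempotents (A : Submodule ℂ L1) : Prop :=
  ∀ B : Submodule ℂ L1, IsClosedSubalgebra B → (∀ e ∈ A, conv e e = e → e ∈ B) → A ≤ B

/-- The synthesis property of an equivalence relation on `ℤ`. -/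
def SynthesisProperty (r : Setoid ℤ) : Prop :=
  ∀ A : Submodule ℂ L1, IsClosedSubalgebra A → (∀ m n, RudinRel A m n ↔ r m n) →
    GeneratedByIdempotents A

/-- If every class of `r` is an interval of `ℤ` (finite of any length, or infinite), or is short
(`|m - n| ≤ C √(1 + |n|)` for equivalent `m, n`), then `r` has the synthesis property. -/
theorem result (r : Setoid ℤ) (C : ℝ)
    (h : ∀ n : ℤ, Set.OrdConnected {m | r n m} ∨
      ∀ m, r n m → |(m : ℝ) - n| ≤ C * Real.sqrt (1 + |(n : ℝ)|)) :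
    SynthesisProperty r := by
  intro A hA hrel B hB hid
  have hM := Pool.Agent.W37.SYN.MEAS.main
  have hRL := Pool.Agent.W109.SYN.RL.main
  exact Pool.Agent.W229.SYN.FIN.main hRL Pool.Agent.W466.SYN.CLS.main
    (Pool.Agent.W810.SYN.main_apx hRL Pool.Agent.W172.SYN.FEJ.main Pool.Agent.W530.SYN.HAR.main hM
      (Pool.Agent.W212.SYN.UN.main hM) (Pool.Agent.W796.SYN.LC.main hM))
    r ⟨C, h⟩ A hA.closed hA.conv_mem hrel B hB.closed hB.conv_mem hid

end

end Pool.Agent.Results.MP_de9001_an.IntervalClasses
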